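import Pool.Agent.Y282.RB.Fin
import Pool.Agent.Y282.RB.K
import Pool.Agent.Run7.h454.RB.E4

set_option autoImplicit false

open MeasureTheory

namespace Pool.Agent.Results.MP_dd244f_an.AngularSharpLargeExponents

/-- The `n`-th power of the Beurling transform: the Fourier multiplier with symbol
`(conj ξ / ξ) ^ n`, in the literal form of the frozen statement. -/
noncomputable def T (n : ℕ) (f : ℂ → ℂ) (z : ℂ) : ℂ :=
  ∫ ξ : ℂ,
    Complex.exp (2 * (Real.pi : ℂ) * Complex.I * (((z.re * ξ.re + z.im * ξ.im : ℝ)) : ℂ)) *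
      ((starRingEnd ℂ ξ / ξ) ^ n *
        ∫ x : ℂ, Complex.exp (-(2 * (Real.pi : ℂ) * Complex.I *
          (((x.re * ξ.re + x.im * ξ.im : ℝ)) : ℂ))) * f x)

/-- The constant `(1/q)_n / (1/p)_n` of the question. -/
noncomputable def K (n : ℕ) (p : ℝ) : ℝ :=
  (ascPochhammer ℝ n).eval (1 - 1 / p) / (ascPochhammer ℝ n).eval (1 / p)

/-- For every `n ≥ 1` and every real `p ≥ 400 n ^ 2` the norm of `T ^ n` on the Schwartz functions `f`
with `f (a z) = a ^ (2 n) f z` for `|a| = 1`, that is, `f (r e^{iθ}) = e^{2 n i θ} φ(r)`, is exactly the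
constant `(1/q)_n / (1/p)_n` of the question: the inequality of the question holds for all these `f`,
and no smaller constant is admissible, even for compactly supported `f`. -/
theorem result (n : ℕ) (hn : 1 ≤ n) (p : ℝ) (hp : 400 * (n : ℝ) ^ 2 ≤ p) :
    (∀ f : SchwartzMap ℂ ℂ, (∀ a z : ℂ, ‖a‖ = 1 → f (a * z) = a ^ (2 * n) * f z) →
      eLpNorm (T n f) (ENNReal.ofReal p) (volume : Measure ℂ)
        ≤ ENNReal.ofReal (K n p) * eLpNorm f (ENNReal.ofReal p) (volume : Measure ℂ)) ∧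
    (∀ c : ℝ, c < K n p →
      ∃ f : SchwartzMap ℂ ℂ, HasCompactSupport f ∧
        (∀ a z : ℂ, ‖a‖ = 1 → f (a * z) = a ^ (2 * n) * f z) ∧
        ENNReal.ofReal c * eLpNorm f (ENNReal.ofReal p) (volume : Measure ℂ)
          < eLpNorm (T n f) (ENNReal.ofReal p) (volume : Measure ℂ)) := by
  have hn1 : (1 : ℝ) ≤ n := by exact_mod_cast hn
  have hn2 : (1 : ℝ) ≤ (n : ℝ) ^ 2 := by nlinarith
  have hp2 : 2 ≤ p := by linarith
  have hT : ∀ n f, T n f = Y282.RB.Tn n f := fun n f => rfl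
  have hK : K n p = Y282.RB.Cn p n := (Y282.RB.K3.main n p (by linarith)).symm
  have hpos : 0 < Y282.RB.Cn p n := by
    unfold Y282.RB.Cn
    refine Finset.prod_pos (fun j _ => ?_)
    have h1 : (1 : ℝ) / p < 1 := by
      rw [div_lt_one (by linarith)]; linarith
    have h2 : (0 : ℝ) < 1 / p := by positivity
    have h3 : (0 : ℝ) ≤ (j : ℝ) := Nat.cast_nonneg j
    apply div_pos <;> linarith
  refine ⟨?_, ?_⟩
  · intro f hf
    rw [hT, hK]
    exact Y282.RB.K.main n p (Y282.RB.Cn p n) hn hp2 hpos.le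
      (fun g hg hs => Y282.RB.Fin.plane n p hn hp2 (Run7.h454.RB.star hn hp) g hg hs) f
      (fun a z ha => hf a z ha)
  · intro c hc
    rw [hK] at hc
    obtain ⟨g, hg, hs, hlt⟩ := Y282.RB.Fin.sharp n p (max c 0) hn (by linarith)
      (le_max_right _ _) (max_lt hc hpos)
    obtain ⟨f, hf1, hf2, hf3⟩ := Y282.RB.K2.main n g hg hs
    refine ⟨f, hf3, fun a z ha => hf2 a z ha, ?_⟩
    rw [hT, hf1]
    refine lt_of_le_of_lt ?_ hlt
    gcongr
    exact le_max_left _ _

end Pool.Agent.Results.MP_dd244f_an.AngularSharpLargeExponents
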